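import Pool.Agent.Q2.PIM.Stm

/-!
# PIM-IND: the ordered products are linearly independent
-/

set_option autoImplicit false

noncomputable section

namespace Pool.Agent.Q95.PIM

open scoped TensorProduct

open Pool.Agent.Q2.PIM

section

variable {k A : Type} [Field k] [Ring A] [Algebra k A] {ι : Type} [DecidableEq ι]

/-- contraction of the comultiplication with a linear form -/
def DD (Δ : A →ₐ[k] A ⊗[k] A) (φ : A →ₗ[k] k) : A →ₗ[k] A :=
  (TensorProduct.rid k A).toLinearMap ∘ₗ (LinearMap.lTensor A φ) ∘ₗ Δ.toLinearMap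

theorem DD_apply (Δ : A →ₐ[k] A ⊗[k] A) (φ : A →ₗ[k] k) (a : A) :
    DD Δ φ a = TensorProduct.rid k A (LinearMap.lTensor A φ (Δ a)) := rfl

theorem DD_one (Δ : A →ₐ[k] A ⊗[k] A) (φ : A →ₗ[k] k) : DD Δ φ 1 = φ 1 • (1 : A) := by
  rw [DD_apply, map_one, Algebra.TensorProduct.one_def, LinearMap.lTensor_tmul,
    TensorProduct.rid_tmul]

theorem DD_mul (Δ : A →ₐ[k] A ⊗[k] A) (φ : A →ₗ[k] k) (x : A)
    (hx : Δ x = x ⊗ₜ[k] 1 + 1 ⊗ₜ[k] x) (a : A) :
    DD Δ φ (x * a) = x * DD Δ φ a + DD Δ (φ ∘ₗ LinearMap.mulLeft k x) a := by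
  rw [DD_apply, DD_apply, DD_apply, map_mul, hx]
  generalize Δ a = t
  induction t using TensorProduct.induction_on with
  | zero => simp
  | tmul b c =>
    rw [add_mul, Algebra.TensorProduct.tmul_mul_tmul, Algebra.TensorProduct.tmul_mul_tmul,
      map_add, map_add, LinearMap.lTensor_tmul, LinearMap.lTensor_tmul, LinearMap.lTensor_tmul,
      LinearMap.lTensor_tmul, TensorProduct.rid_tmul, TensorProduct.rid_tmul,
      TensorProduct.rid_tmul, TensorProduct.rid_tmul, one_mul, one_mul, mul_smul_comm]
    rfl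
  | add s t hs ht =>
    rw [mul_add, map_add, map_add, hs, ht, map_add, map_add, map_add, map_add, mul_add]
    abel

/-- the product over a list -/
def pr (x : ι → A) (l : List ι) : A := (l.map x).prod

omit [DecidableEq ι] in
theorem pr_nil (x : ι → A) : pr x [] = 1 := rfl

omit [DecidableEq ι] in
theorem pr_cons (x : ι → A) (i : ι) (l : List ι) : pr x (i :: l) = x i * pr x l := by
  simp [pr]

/-- the span of the products over the sublists that are shorter by `m` at least -/
def Lw (k : Type) {A : Type} [Field k] [Ring A] [Algebra k A] {ι : Type} (x : ι → A)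
    (l : List ι) (m : ℕ) : Submodule k A :=
  Submodule.span k {a | ∃ l' : List ι, l'.Sublist l ∧ l'.length + m ≤ l.length ∧ a = pr x l'}

omit [DecidableEq ι] in
theorem Lw_mem (x : ι → A) (l l' : List ι) (m : ℕ) (h : l'.Sublist l)
    (h2 : l'.length + m ≤ l.length) : pr x l' ∈ Lw k x l m :=
  Submodule.subset_span ⟨l', h, h2, rfl⟩

omit [DecidableEq ι] in
theorem Lw_cons (x : ι → A) (i : ι) (l : List ι) (m : ℕ) : Lw k x l m ≤ Lw k x (i :: l) (m + 1) := by
  unfold Lw
  rw [Submodule.span_le]
  rintro a ⟨l', h1, h2, rfl⟩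
  refine Submodule.subset_span ⟨l', h1.cons i, ?_, rfl⟩
  rw [List.length_cons]
  omega

omit [DecidableEq ι] in
theorem Lw_mono (x : ι → A) (l : List ι) (m : ℕ) : Lw k x l (m + 1) ≤ Lw k x l m := by
  unfold Lw
  rw [Submodule.span_le]
  rintro a ⟨l', h1, h2, rfl⟩
  exact Submodule.subset_span ⟨l', h1, by omega, rfl⟩

omit [DecidableEq ι] in
theorem Lw_mul (x : ι → A) (i : ι) (l : List ι) (m : ℕ) {a : A} (h : a ∈ Lw k x l m) :
    x i * a ∈ Lw k x (i :: l) m := by
  have h1 : Lw k x l m ≤ (Lw k x (i :: l) m).comap (LinearMap.mulLeft k (x i)) := by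
    conv_lhs => unfold Lw
    rw [Submodule.span_le]
    rintro a ⟨l', h1, h2, rfl⟩
    change x i * pr x l' ∈ Lw k x (i :: l) m
    rw [← pr_cons]
    apply Lw_mem
    · exact h1.cons_cons i
    · rw [List.length_cons, List.length_cons]
      omega
  exact h1 h

omit [DecidableEq ι] in
theorem first (x : ι → A) (Δ : A →ₐ[k] A ⊗[k] A) (hΔ : ∀ i, Δ (x i) = x i ⊗ₜ[k] 1 + 1 ⊗ₜ[k] x i)
    (l : List ι) : ∀ φ : A →ₗ[k] k, DD Δ φ (pr x l) - φ 1 • pr x l ∈ Lw k x l 1 := by
  induction l with
  | nil =>
    intro φ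
    rw [pr_nil, DD_one, sub_self]
    exact Submodule.zero_mem _
  | cons i l ih =>
    intro φ
    rw [pr_cons, DD_mul Δ φ (x i) (hΔ i)]
    have h1 := Lw_mul x i l 1 (ih φ)
    have h2 := Lw_mono x (i :: l) 1 (Lw_cons x i l 1 (ih (φ ∘ₗ LinearMap.mulLeft k (x i))))
    have h3 : pr x l ∈ Lw k x (i :: l) 1 :=
      Lw_mem x (i :: l) l 1 (List.sublist_cons_self i l) (by rw [List.length_cons])
    have h4 := Submodule.smul_mem _ ((φ ∘ₗ LinearMap.mulLeft k (x i)) 1) h3
    have h5 := Submodule.add_mem _ h1 (Submodule.add_mem _ h2 h4)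
    have h6 : x i * (DD Δ φ (pr x l) - φ 1 • pr x l) +
        (DD Δ (φ ∘ₗ LinearMap.mulLeft k (x i)) (pr x l) -
          (φ ∘ₗ LinearMap.mulLeft k (x i)) 1 • pr x l +
          (φ ∘ₗ LinearMap.mulLeft k (x i)) 1 • pr x l) =
        x i * DD Δ φ (pr x l) + DD Δ (φ ∘ₗ LinearMap.mulLeft k (x i)) (pr x l) -
          φ 1 • (x i * pr x l) := by
      rw [sub_add_cancel, mul_sub, mul_smul_comm]
      abel
    rw [h6] at h5
    exact h5

theorem second (x : ι → A) (Δ : A →ₐ[k] A ⊗[k] A)
    (hΔ : ∀ i, Δ (x i) = x i ⊗ₜ[k] 1 + 1 ⊗ₜ[k] x i) (ψ : ι → A →ₗ[k] k) (h1 : ∀ j, ψ j 1 = 0)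
    (hx : ∀ i j, ψ j (x i) = if i = j then 1 else 0) (j : ι) (l : List ι) (hl : l.Nodup) :
    DD Δ (ψ j) (pr x l) - (if j ∈ l then pr x (l.erase j) else 0) ∈ Lw k x l 2 := by
  induction l with
  | nil =>
    rw [pr_nil, DD_one, h1]
    simp
  | cons i l ih =>
    rw [List.nodup_cons] at hl
    have ih' := ih hl.2
    rw [pr_cons, DD_mul Δ (ψ j) (x i) (hΔ i)]
    have e1 := Lw_mul x i l 2 ih'
    have e2 := Lw_cons x i l 1 (first x Δ hΔ l (ψ j ∘ₗ LinearMap.mulLeft k (x i)))
    have e3 : (ψ j ∘ₗ LinearMap.mulLeft k (x i)) 1 = if i = j then 1 else 0 := by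
      rw [← hx i j]
      simp
    rw [e3] at e2
    have e4 := Submodule.add_mem _ e1 e2
    have e5 : x i * (DD Δ (ψ j) (pr x l) - if j ∈ l then pr x (l.erase j) else 0) +
        (DD Δ (ψ j ∘ₗ LinearMap.mulLeft k (x i)) (pr x l) -
          (if i = j then (1 : k) else 0) • pr x l) =
        x i * DD Δ (ψ j) (pr x l) + DD Δ (ψ j ∘ₗ LinearMap.mulLeft k (x i)) (pr x l) -
          (if j ∈ i :: l then pr x ((i :: l).erase j) else 0) := by
      by_cases hij : i = j
      · subst hij
        have hmem : i ∈ i :: l := List.mem_cons_self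
        rw [if_neg hl.1, if_pos rfl, if_pos hmem, List.erase_cons_head, one_smul, sub_zero]
        abel
      · have hne : j ≠ i := fun h => hij h.symm
        rw [if_neg hij, zero_smul, sub_zero]
        by_cases hj : j ∈ l
        · have hmem : j ∈ i :: l := List.mem_cons_of_mem i hj
          have herase : (i :: l).erase j = i :: l.erase j :=
            List.erase_cons_tail (by simpa using hij)
          rw [if_pos hj, if_pos hmem, herase, pr_cons, mul_sub]
          abel
        · have hmem : j ∉ i :: l := by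
            rw [List.mem_cons]
            tauto
          rw [if_neg hj, if_neg hmem, sub_zero, sub_zero]
    rw [e5] at e4
    exact e4

/-- iterated contraction -/
def EE (D : ι → A →ₗ[k] A) : List ι → (A →ₗ[k] A)
  | [] => LinearMap.id
  | j :: l => EE D l ∘ₗ D j

theorem EE_pr (x : ι → A) (D : ι → A →ₗ[k] A)
    (hD : ∀ (j : ι) (l : List ι), l.Nodup →
      D j (pr x l) - (if j ∈ l then pr x (l.erase j) else 0) ∈ Lw k x l 2) (l₀ : List ι) :
    l₀.Nodup → ∀ l : List ι, l.Nodup → l.length ≤ l₀.length →
      EE D l₀ (pr x l) = if l.toFinset = l₀.toFinset then 1 else 0 := by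
  induction l₀ with
  | nil =>
    intro _ l _ hlen
    have : l = [] := List.length_eq_zero_iff.mp (by simpa using hlen)
    rw [this]
    simp [EE, pr]
  | cons j l₀ ih =>
    intro hnd l hl hlen
    rw [List.nodup_cons] at hnd
    rw [List.length_cons] at hlen
    have ih' := ih hnd.2
    change EE D l₀ (D j (pr x l)) = _
    have hker : Lw k x l 2 ≤ LinearMap.ker (EE D l₀) := by
      unfold Lw
      rw [Submodule.span_le]
      rintro a ⟨l', h1, h2, rfl⟩
      change EE D l₀ (pr x l') = 0
      have hl' : l'.Nodup := h1.nodup hl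
      rw [ih' l' hl' (by omega), if_neg]
      intro h3
      have h4 := congrArg Finset.card h3
      rw [List.toFinset_card_of_nodup hl', List.toFinset_card_of_nodup hnd.2] at h4
      omega
    have h5 : EE D l₀ (D j (pr x l)) = EE D l₀ (if j ∈ l then pr x (l.erase j) else 0) := by
      have := hker (hD j l hl)
      rw [LinearMap.mem_ker, map_sub, sub_eq_zero] at this
      exact this
    rw [h5]
    by_cases hj : j ∈ l
    · rw [if_pos hj, ih' (l.erase j) (hl.erase j)
        (by rw [List.length_erase_of_mem hj]; omega)]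
      have hiff : ((l.erase j).toFinset = l₀.toFinset) ↔ (l.toFinset = (j :: l₀).toFinset) := by
        constructor
        · intro h
          ext a
          have ha : a ∈ (l.erase j).toFinset ↔ a ∈ l₀.toFinset := by rw [h]
          rw [List.mem_toFinset, List.mem_toFinset, hl.mem_erase_iff] at ha
          rw [List.mem_toFinset, List.mem_toFinset, List.mem_cons, ← ha]
          by_cases haj : a = j
          · rw [haj]; tauto
          · tauto
        · intro h
          ext a
          have ha : a ∈ l.toFinset ↔ a ∈ (j :: l₀).toFinset := by rw [h]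
          rw [List.mem_toFinset, List.mem_toFinset, List.mem_cons] at ha
          rw [List.mem_toFinset, List.mem_toFinset, hl.mem_erase_iff, ha]
          constructor
          · rintro ⟨h1, h2 | h2⟩
            · exact absurd h2 h1
            · exact h2
          · intro h1
            refine ⟨?_, Or.inr h1⟩
            intro h2
            rw [h2] at h1
            exact hnd.1 h1
      by_cases hc : l.toFinset = (j :: l₀).toFinset
      · rw [if_pos hc, if_pos (hiff.mpr hc)]
      · rw [if_neg hc, if_neg (fun h => hc (hiff.mp h))]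
    · rw [if_neg hj, map_zero, if_neg]
      intro h
      apply hj
      have : j ∈ (j :: l₀).toFinset := by simp
      rw [← h, List.mem_toFinset] at this
      exact this

/-- the product over the members of `S` in the order of `L` -/
def mon (x : ι → A) (L : List ι) (S : Finset ι) : A := pr x (L.filter (fun i => decide (i ∈ S)))

theorem filt_toFinset (L : List ι) (S : Finset ι) (hS : S ⊆ L.toFinset) :
    (L.filter (fun i => decide (i ∈ S))).toFinset = S := by
  ext a
  rw [List.mem_toFinset, List.mem_filter, decide_eq_true_eq]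
  constructor
  · exact fun h => h.2
  · intro h
    exact ⟨List.mem_toFinset.mp (hS h), h⟩

theorem filt_sub (L l : List ι) (h : l.Sublist L) (hL : L.Nodup) :
    L.filter (fun i => decide (i ∈ l.toFinset)) = l := by
  induction h with
  | slnil => rfl
  | cons a h ih =>
    rename_i l L
    rw [List.nodup_cons] at hL
    rw [List.filter_cons_of_neg]
    · exact ih hL.2
    · simp only [List.mem_toFinset, decide_eq_true_eq]
      exact fun h' => hL.1 (h.subset h')
  | cons_cons a h ih =>
    rename_i l L
    rw [List.nodup_cons] at hL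
    rw [List.filter_cons_of_pos (by simp)]
    congr 1
    refine Eq.trans ?_ (ih hL.2)
    apply List.filter_congr
    intro b hb
    have hba : b ≠ a := fun h' => hL.1 (h' ▸ hb)
    simp [hba]

theorem indep [Nontrivial A] (x : ι → A) (D : ι → A →ₗ[k] A)
    (hD : ∀ (j : ι) (l : List ι), l.Nodup →
      D j (pr x l) - (if j ∈ l then pr x (l.erase j) else 0) ∈ Lw k x l 2)
    (L : List ι) (hL : L.Nodup) (d : Finset ι → k)
    (h : ∑ T ∈ L.toFinset.powerset, d T • mon x L T = 0) :
    ∀ T ∈ L.toFinset.powerset, d T = 0 := by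
  classical
  by_contra hcon
  push Not at hcon
  obtain ⟨T₁, hT₁, hne₁⟩ := hcon
  obtain ⟨T₀, hT₀, hmax⟩ := Finset.exists_max_image (L.toFinset.powerset.filter (fun T => d T ≠ 0))
    Finset.card ⟨T₁, Finset.mem_filter.mpr ⟨hT₁, hne₁⟩⟩
  rw [Finset.mem_filter] at hT₀
  obtain ⟨hT₀, hne₀⟩ := hT₀
  rw [Finset.mem_powerset] at hT₀
  set l₀ := L.filter (fun i => decide (i ∈ T₀)) with hl₀
  have hl₀nd : l₀.Nodup := hL.filter _
  have hl₀T : l₀.toFinset = T₀ := filt_toFinset L T₀ hT₀
  have h1 := congrArg (EE D l₀) h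
  rw [map_sum, map_zero] at h1
  have h2 : ∀ T ∈ L.toFinset.powerset, EE D l₀ (d T • mon x L T) =
      if T = T₀ then d T₀ • (1 : A) else 0 := by
    intro T hT
    rw [Finset.mem_powerset] at hT
    rw [map_smul]
    have hnd : (L.filter (fun i => decide (i ∈ T))).Nodup := hL.filter _
    have hTT := filt_toFinset L T hT
    by_cases h0 : d T = 0
    · rw [h0, zero_smul]
      by_cases hTe : T = T₀
      · exact absurd (hTe ▸ h0) hne₀
      · rw [if_neg hTe]
    · have hcard : T.card ≤ T₀.card :=
        hmax T (Finset.mem_filter.mpr ⟨Finset.mem_powerset.mpr hT, h0⟩)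
      have hlen : (L.filter (fun i => decide (i ∈ T))).length ≤ l₀.length := by
        rw [← List.toFinset_card_of_nodup hnd, ← List.toFinset_card_of_nodup hl₀nd, hTT, hl₀T]
        exact hcard
      have h3 := EE_pr x D hD l₀ hl₀nd _ hnd hlen
      rw [hTT, hl₀T] at h3
      change d T • EE D l₀ (pr x (L.filter (fun i => decide (i ∈ T)))) = _
      rw [h3]
      by_cases hTe : T = T₀
      · rw [if_pos hTe, if_pos hTe, hTe]
      · rw [if_neg hTe, if_neg hTe, smul_zero]
  rw [Finset.sum_congr rfl h2, Finset.sum_ite_eq' , if_pos (Finset.mem_powerset.mpr hT₀)] at h1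
  rcases smul_eq_zero.mp h1 with h3 | h3
  · exact hne₀ h3
  · exact one_ne_zero h3

theorem W_mem (x : ι → A) (L : List ι) (hL : L.Nodup) {w : A} (hw : w ∈ W k (L.map x)) :
    ∃ c : Finset ι → k, ∑ T ∈ L.toFinset.powerset, c T • mon x L T = w := by
  have h1 : W k (L.map x) ≤ Submodule.span k ((mon x L) '' (L.toFinset.powerset : Set (Finset ι))) := by
    unfold W
    rw [Submodule.span_le]
    rintro a ⟨l, hl, rfl⟩
    obtain ⟨l', hl', rfl⟩ := List.sublist_map_iff.mp hl
    apply Submodule.subset_span
    refine ⟨l'.toFinset, ?_, ?_⟩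
    · rw [Finset.mem_coe, Finset.mem_powerset]
      intro a ha
      rw [List.mem_toFinset] at ha ⊢
      exact hl'.subset ha
    · unfold mon
      rw [filt_sub L l' hl' hL]
      rfl
  obtain ⟨c, hc⟩ := (Submodule.mem_span_image_finset_iff_exists_fun k).mp (h1 hw)
  classical
  refine ⟨fun T => if hT : T ∈ L.toFinset.powerset then c ⟨T, hT⟩ else 0, ?_⟩
  rw [← hc, ← Finset.sum_coe_sort]
  apply Finset.sum_congr rfl
  intro T _
  simp only [dif_pos T.2]

end

theorem t_IND : S_IND := by
  intro k A _ _ _ ι _ _ x Δ hΔ ψ hψ1 hψx hone L hL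
  have : Nontrivial A := ⟨⟨1, 0, hone⟩⟩
  have hD : ∀ (j : ι) (l : List ι), l.Nodup →
      DD Δ (ψ j) (pr x l) - (if j ∈ l then pr x (l.erase j) else 0) ∈ Lw k x l 2 :=
    fun j l hl => second x Δ hΔ ψ hψ1 hψx j l hl
  induction L with
  | nil => exact hone
  | cons j L ih =>
    have hL' := List.nodup_cons.mp hL
    refine ⟨ih hL'.2, ?_⟩
    intro w hw w' hw' heq
    obtain ⟨c, hc⟩ := W_mem x L hL'.2 hw
    obtain ⟨c', hc'⟩ := W_mem x L hL'.2 hw'
    have hjn : j ∉ L.toFinset := by rw [List.mem_toFinset]; exact hL'.1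
    have hm1 : ∀ T ∈ L.toFinset.powerset, mon x (j :: L) T = mon x L T := by
      intro T hT
      rw [Finset.mem_powerset] at hT
      unfold mon
      rw [List.filter_cons_of_neg]
      simp only [decide_eq_true_eq]
      exact fun h => hjn (hT h)
    have hm2 : ∀ T ∈ L.toFinset.powerset, mon x (j :: L) (insert j T) = x j * mon x L T := by
      intro T hT
      rw [Finset.mem_powerset] at hT
      unfold mon
      rw [List.filter_cons_of_pos (by simp), pr_cons]
      congr 2
      apply List.filter_congr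
      intro b hb
      have hba : b ≠ j := fun h' => hL'.1 (h' ▸ hb)
      simp [hba]
    set d : Finset ι → k := fun T => if j ∈ T then c' (T.erase j) else c T with hd
    have hsum : ∑ T ∈ (j :: L).toFinset.powerset, d T • mon x (j :: L) T = 0 := by
      rw [List.toFinset_cons, Finset.sum_powerset_insert hjn]
      have s1 : ∑ T ∈ L.toFinset.powerset, d T • mon x (j :: L) T = w := by
        rw [← hc]
        apply Finset.sum_congr rfl
        intro T hT
        have hjT : j ∉ T := fun h => hjn (Finset.mem_powerset.mp hT h)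
        rw [hm1 T hT, hd]
        simp only [if_neg hjT]
      have s2 : ∑ T ∈ L.toFinset.powerset, d (insert j T) • mon x (j :: L) (insert j T) =
          x j * w' := by
        rw [← hc', Finset.mul_sum]
        apply Finset.sum_congr rfl
        intro T hT
        have hjT : j ∉ T := fun h => hjn (Finset.mem_powerset.mp hT h)
        rw [hm2 T hT, hd]
        simp only [if_pos (Finset.mem_insert_self j T), Finset.erase_insert hjT]
        rw [mul_smul_comm]
      rw [s1, s2]
      exact heq
    have hzero := indep x (fun j => DD Δ (ψ j)) hD (j :: L) hL d hsum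
    have hz1 : ∀ T ∈ L.toFinset.powerset, c T = 0 := by
      intro T hT
      have hjT : j ∉ T := fun h => hjn (Finset.mem_powerset.mp hT h)
      have h1 := hzero T (by
        rw [List.toFinset_cons, Finset.mem_powerset]
        exact (Finset.mem_powerset.mp hT).trans (Finset.subset_insert _ _))
      rw [hd] at h1
      simpa only [if_neg hjT] using h1
    have hz2 : ∀ T ∈ L.toFinset.powerset, c' T = 0 := by
      intro T hT
      have hjT : j ∉ T := fun h => hjn (Finset.mem_powerset.mp hT h)
      have h1 := hzero (insert j T) (by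
        rw [List.toFinset_cons, Finset.mem_powerset]
        exact Finset.insert_subset_insert _ (Finset.mem_powerset.mp hT))
      rw [hd] at h1
      simpa only [if_pos (Finset.mem_insert_self j T), Finset.erase_insert hjT] using h1
    constructor
    · rw [← hc]
      exact Finset.sum_eq_zero fun T hT => by rw [hz1 T hT, zero_smul]
    · rw [← hc']
      exact Finset.sum_eq_zero fun T hT => by rw [hz2 T hT, zero_smul]

end Pool.Agent.Q95.PIM
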